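import Pool.Agent.TH275.KL.Smooth
import Pool.Agent.TH275.RF.GaussW2

/-! The mean number of closed orbits over a product of planar convex sets in the space of coefficients. -/

open Real Set MeasureTheory Topology Filter
open scoped ENNReal

namespace Pool.Agent.Y393.HC

noncomputable section

open Pool.Agent
open Pool.Agent.H709R2 (fld rot rotc NP NP_smul measurable_NP continuous_rotc measurePreserving_rotc
  rot_add rot_smul)
open Pool.Agent.TH275.RF (en mo en_nonneg en_add_le)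
open Pool.Agent.TH275.KL (Full2 lintegral_phiK)
open Pool.Agent.W960.HR (Full NZ Phi Mom Dens measurable_Phi)

variable {S : Finset (ℕ × ℕ)} {n : ℕ}

/-- the Euclidean disc -/
def disc (p : ℝ × ℝ) (r : ℝ) : Set (ℝ × ℝ) := {v | (v.1 - p.1) ^ 2 + (v.2 - p.2) ^ 2 ≤ r ^ 2}

lemma en_sq' (v : ℝ × ℝ) : en v ^ 2 = v.1 ^ 2 + v.2 ^ 2 := by
  unfold en
  rw [Real.sq_sqrt (by positivity)]

lemma en_smul (a : ℝ) (v : ℝ × ℝ) : en (a • v) = |a| * en v := by
  unfold en
  have : (a • v).1 ^ 2 + (a • v).2 ^ 2 = a ^ 2 * (v.1 ^ 2 + v.2 ^ 2) := by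
    simp only [Prod.smul_fst, Prod.smul_snd, smul_eq_mul]
    ring
  rw [this, Real.sqrt_mul (sq_nonneg _), Real.sqrt_sq_eq_abs]

lemma mem_disc {p v : ℝ × ℝ} {r : ℝ} (hr : 0 ≤ r) : v ∈ disc p r ↔ en (v - p) ≤ r := by
  unfold en
  rw [Real.sqrt_le_left hr]
  rfl

/-- the dilation of `A` with centre `p` -/
def dil (p : ℝ × ℝ) (t : ℝ) (A : Set (ℝ × ℝ)) : Set (ℝ × ℝ) := AffineMap.homothety p (1 + t) '' A

lemma hom_apply (p u : ℝ × ℝ) (t : ℝ) :
    AffineMap.homothety p (1 + t) u = (1 + t) • (u - p) + p := by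
  rw [AffineMap.homothety_apply]
  rfl

lemma mem_dil {A : Set (ℝ × ℝ)} (hA : Convex ℝ A) {p : ℝ × ℝ} {r t : ℝ} (hr : 0 ≤ r)
    (hd : disc p r ⊆ A) (ht : 0 < t) {v w : ℝ × ℝ} (hv : v ∈ A) (hw : en w ≤ t * r) :
    v + w ∈ dil p t A := by
  have h1 : p + t⁻¹ • w ∈ A := by
    apply hd
    rw [mem_disc hr, add_sub_cancel_left, en_smul, abs_of_pos (inv_pos.2 ht), inv_mul_le_iff₀ ht]
    exact hw
  have h2 : (1 / (1 + t)) • v + (t / (1 + t)) • (p + t⁻¹ • w) ∈ A := by
    refine hA hv h1 (by positivity) (by positivity) ?_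
    field_simp
  refine ⟨_, h2, ?_⟩
  rw [hom_apply]
  have h3 : (1 + t) ≠ 0 := by positivity
  have h4 : t ≠ 0 := ht.ne'
  ext
  · simp only [Prod.smul_fst, Prod.fst_add, Prod.fst_sub, smul_eq_mul]
    field_simp
    ring
  · simp only [Prod.smul_snd, Prod.snd_add, Prod.snd_sub, smul_eq_mul]
    field_simp
    ring

lemma subset_dil {A : Set (ℝ × ℝ)} (hA : Convex ℝ A) {p : ℝ × ℝ} {r t : ℝ} (hr : 0 ≤ r)
    (hd : disc p r ⊆ A) (ht : 0 < t) : A ⊆ dil p t A := by
  intro v hv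
  have h0 : en (0 : ℝ × ℝ) = 0 := by simp [en]
  have := mem_dil hA hr hd ht hv (w := 0) (by rw [h0]; positivity)
  rwa [add_zero] at this

lemma dil_bdd {A : Set (ℝ × ℝ)} {p : ℝ × ℝ} {R t : ℝ} (hR : 0 ≤ R)
    (hd : A ⊆ disc 0 R) (hp : p ∈ A) (ht : 0 ≤ t) {v : ℝ × ℝ} (hv : v ∈ dil p t A) :
    en v ≤ (1 + 2 * t) * R := by
  obtain ⟨u, hu, rfl⟩ := hv
  rw [hom_apply]
  have h1 : (1 + t) • (u - p) + p = (1 + t) • u + (-t) • p := by
    ext <;> simp <;> ring
  rw [h1]
  have h2 : en u ≤ R := by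
    have := (mem_disc hR).1 (hd hu)
    rwa [sub_zero] at this
  have h3 : en p ≤ R := by
    have := (mem_disc hR).1 (hd hp)
    rwa [sub_zero] at this
  refine (en_add_le _ _).trans ?_
  rw [en_smul, en_smul, abs_of_nonneg (by positivity : (0:ℝ) ≤ 1 + t), abs_neg, abs_of_nonneg ht]
  nlinarith

lemma volume_dil (p : ℝ × ℝ) {t : ℝ} (ht : 0 ≤ t) (A : Set (ℝ × ℝ)) :
    volume (dil p t A) = ENNReal.ofReal ((1 + t) ^ 2) * volume A := by
  unfold dil
  rw [Measure.addHaar_image_homothety, Module.finrank_prod, Module.finrank_self, one_add_one_eq_two,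
    abs_of_nonneg (by positivity)]

lemma isCompact_of {A : Set (ℝ × ℝ)} (hA : IsClosed A) {R : ℝ} (hR : 0 ≤ R) (h : A ⊆ disc 0 R) :
    IsCompact A := by
  refine Metric.isCompact_of_isClosed_isBounded hA ?_
  refine (Metric.isBounded_closedBall (x := (0 : ℝ × ℝ)) (r := R)).subset fun v hv => ?_
  have h1 := (mem_disc hR).1 (h hv)
  rw [sub_zero] at h1
  have h2 : v.1 ^ 2 + v.2 ^ 2 ≤ R ^ 2 := by
    rw [← en_sq']
    exact pow_le_pow_left₀ (en_nonneg _) h1 2
  rw [mem_closedBall_zero_iff, Prod.norm_def, max_le_iff, Real.norm_eq_abs, Real.norm_eq_abs]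
  exact ⟨abs_le_of_sq_le_sq (by nlinarith [sq_nonneg v.2]) hR,
    abs_le_of_sq_le_sq (by nlinarith [sq_nonneg v.1]) hR⟩

lemma isCompact_dil {A : Set (ℝ × ℝ)} (hA : IsCompact A) (p : ℝ × ℝ) (t : ℝ) :
    IsCompact (dil p t A) := by
  refine hA.image ?_
  have : (AffineMap.homothety p (1 + t) : ℝ × ℝ → ℝ × ℝ) = fun u => (1 + t) • (u - p) + p := by
    funext u
    exact hom_apply p u t
  rw [this]
  fun_prop

lemma volume_ge {A : Set (ℝ × ℝ)} {p : ℝ × ℝ} {r ρ : ℝ} (hρ : 0 ≤ ρ) (hr : ρ ≤ r)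
    (hd : disc p r ⊆ A) : ENNReal.ofReal (ρ ^ 2) ≤ volume A := by
  have h1 : Icc (p.1 - ρ / 2) (p.1 + ρ / 2) ×ˢ Icc (p.2 - ρ / 2) (p.2 + ρ / 2) ⊆ disc p r := by
    rintro v ⟨⟨h1, h2⟩, h3, h4⟩
    have e1 : (v.1 - p.1) ^ 2 ≤ (ρ / 2) ^ 2 := by
      apply sq_le_sq'
      · linarith
      · linarith
    have e2 : (v.2 - p.2) ^ 2 ≤ (ρ / 2) ^ 2 := by
      apply sq_le_sq'
      · linarith
      · linarith
    change (v.1 - p.1) ^ 2 + (v.2 - p.2) ^ 2 ≤ r ^ 2
    nlinarith
  refine le_trans (le_of_eq ?_) (measure_mono (h1.trans hd))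
  rw [Measure.volume_eq_prod, Measure.prod_prod, Real.volume_Icc, Real.volume_Icc,
    ← ENNReal.ofReal_mul (by linarith)]
  congr 1
  ring

/-- rotations move points of the disc of radius `R` by at most `|α| R` -/
lemma en_rot_sub (α : ℝ) (v : ℝ × ℝ) : en (rot α v - v) ≤ |α| * en v := by
  have h1 : en (rot α v - v) ^ 2 ≤ (|α| * en v) ^ 2 := by
    rw [en_sq', mul_pow, en_sq', sq_abs]
    have h2 : (rot α v - v).1 ^ 2 + (rot α v - v).2 ^ 2 =
        (2 - 2 * Real.cos α) * (v.1 ^ 2 + v.2 ^ 2) := by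
      unfold rot
      simp only [Prod.fst_sub, Prod.snd_sub]
      have := Real.sin_sq_add_cos_sq α
      linear_combination (v.1 ^ 2 + v.2 ^ 2) * this
    rw [h2]
    refine mul_le_mul_of_nonneg_right ?_ (by positivity)
    have := Real.one_sub_sq_div_two_le_cos (x := α)
    linarith
  exact (abs_le_of_sq_le_sq' h1 (mul_nonneg (abs_nonneg _) (en_nonneg _))).2

lemma rot_back (α : ℝ) (v : ℝ × ℝ) : rot (-α) (rot α v) = v := by
  unfold rot
  rw [Real.cos_neg, Real.sin_neg]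
  have := Real.sin_sq_add_cos_sq α
  ext
  · simp only
    linear_combination v.1 * this
  · simp only
    linear_combination v.2 * this

/-- the product of the sets `A m` -/
lemma mem_prod {A : S → Set (ℝ × ℝ)} {c : S → ℝ × ℝ} : c ∈ univ.pi A ↔ ∀ m, c m ∈ A m := by
  simp

/-- the mean over the product of the sets `A m` is bounded by the mean over larger sets of the rotated
system -/
lemma rot_le {A B : S → Set (ℝ × ℝ)} (hA : ∀ m, MeasurableSet (A m)) (hB : ∀ m, MeasurableSet (B m))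
    {α : ℝ} (h : ∀ m, ∀ v ∈ A m, rot (-α) v ∈ B m) :
    ∫⁻ c in univ.pi A, NP c ≤ ∫⁻ c in univ.pi B, NP (rotc α c) := by
  have hA' : MeasurableSet (univ.pi A) := MeasurableSet.univ_pi hA
  have hB' : MeasurableSet (univ.pi B) := MeasurableSet.univ_pi hB
  have hα : ∀ α : ℝ, Measurable fun c : S → ℝ × ℝ => rotc α c := fun α => by
    have : Continuous fun c : S → ℝ × ℝ => rotc α c := by unfold rotc rot; fun_prop
    exact this.measurable
  set F : (S → ℝ × ℝ) → ℝ≥0∞ := fun c => (univ.pi B).indicator 1 (rotc (-α) c) * NP c with hF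
  have hFm : Measurable F :=
    ((measurable_one.indicator hB').comp (hα (-α))).mul measurable_NP
  have h1 := (measurePreserving_rotc (S := S) α).lintegral_comp hFm
  have h2 : ∀ c, F (rotc α c) = (univ.pi B).indicator (fun c => NP (rotc α c)) c := by
    intro c
    simp only [hF]
    have e : rotc (-α) (rotc α c) = c := by
      funext m
      exact rot_back α (c m)
    rw [e]
    by_cases hc : c ∈ univ.pi B
    · rw [indicator_of_mem hc, indicator_of_mem hc, Pi.one_apply, one_mul]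
    · rw [indicator_of_notMem hc, indicator_of_notMem hc, zero_mul]
  rw [← lintegral_indicator hA', ← lintegral_indicator hB', ← lintegral_congr h2, h1]
  refine lintegral_mono fun c => ?_
  by_cases hc : c ∈ univ.pi A
  · have hc' : rotc (-α) c ∈ univ.pi B := by
      rw [mem_prod] at hc ⊢
      exact fun m => h m _ (hc m)
    simp only [hF]
    rw [indicator_of_mem hc, indicator_of_mem hc', Pi.one_apply, one_mul]
  · rw [indicator_of_notMem hc]
    exact zero_le

/-- averaging over the angles -/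
lemma phi_int {A B : S → Set (ℝ × ℝ)} (hA : ∀ m, MeasurableSet (A m))
    (hB : ∀ m, MeasurableSet (B m)) {δ : ℝ} (hδ1 : δ ≤ π)
    (h : ∀ m, ∀ α ∈ Ioo 0 δ, ∀ v ∈ A m, rot (-α) v ∈ B m) :
    ENNReal.ofReal δ * ∫⁻ c in univ.pi A, NP c ≤ ∫⁻ c in univ.pi B, Phi c := by
  have hmeas : Measurable (Function.uncurry fun (α : ℝ) (c : S → ℝ × ℝ) => NP (rotc α c)) :=
    measurable_NP.comp continuous_rotc.measurable
  calc ENNReal.ofReal δ * ∫⁻ c in univ.pi A, NP c
      = ∫⁻ _ in Ioo 0 δ, ∫⁻ c in univ.pi A, NP c := by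
        rw [lintegral_const, Measure.restrict_apply_univ, Real.volume_Ioo, sub_zero, mul_comm]
    _ ≤ ∫⁻ α in Ioo 0 δ, ∫⁻ c in univ.pi B, NP (rotc α c) := by
        refine setLIntegral_mono' measurableSet_Ioo fun α hα => ?_
        exact rot_le hA hB fun m v hv => h m α hα v hv
    _ = ∫⁻ c in univ.pi B, ∫⁻ α in Ioo 0 δ, NP (rotc α c) := by
        rw [lintegral_lintegral_swap (μ := volume.restrict (Ioo 0 δ))
          (ν := volume.restrict (univ.pi B))
          (f := fun (α : ℝ) (c : S → ℝ × ℝ) => NP (rotc α c)) hmeas.aemeasurable]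
    _ ≤ ∫⁻ c in univ.pi B, Phi c := by
        refine lintegral_mono fun c => ?_
        unfold Phi
        exact lintegral_mono_set (Ioo_subset_Ioo_right hδ1)

/-- the uniform distribution on a set -/
def unif (B : Set (ℝ × ℝ)) : Measure (ℝ × ℝ) := (volume B)⁻¹ • volume.restrict B

lemma unif_prob {B : Set (ℝ × ℝ)} (h0 : volume B ≠ 0) (h1 : volume B ≠ ⊤) :
    IsProbabilityMeasure (unif B) := by
  constructor
  unfold unif
  rw [Measure.smul_apply, Measure.restrict_apply_univ, smul_eq_mul, ENNReal.inv_mul_cancel h0 h1]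

lemma pi_unif {B : S → Set (ℝ × ℝ)} (h0 : ∀ m, volume (B m) ≠ 0)
    (h1 : ∀ m, volume (B m) ≠ ⊤) :
    (volume : Measure (S → ℝ × ℝ)).restrict (univ.pi B) =
      (volume (univ.pi B)) • Measure.pi fun m => unif (B m) := by
  have : ∀ m, IsProbabilityMeasure (unif (B m)) := fun m => unif_prob (h0 m) (h1 m)
  have hv : volume (univ.pi B) = ∏ m, volume (B m) := by rw [volume_pi_pi]
  have h2 : volume (univ.pi B) ≠ 0 := by
    rw [hv, Finset.prod_ne_zero_iff]
    exact fun m _ => h0 m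
  have h3 : volume (univ.pi B) ≠ ⊤ := by
    rw [hv]
    exact ENNReal.prod_ne_top fun m _ => h1 m
  have h4 : Measure.pi (fun m => unif (B m)) = (volume (univ.pi B))⁻¹ •
      (volume : Measure (S → ℝ × ℝ)).restrict (univ.pi B) := by
    refine Measure.pi_eq fun s hs => ?_
    rw [Measure.smul_apply, Measure.restrict_apply (MeasurableSet.univ_pi hs), ← pi_inter_distrib,
      volume_pi_pi, volume_pi_pi, smul_eq_mul, ENNReal.prod_inv_distrib (by
        intro i _ j _ _
        exact Or.inl (h0 i)), ← Finset.prod_mul_distrib]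
    refine Finset.prod_congr rfl fun m _ => ?_
    unfold unif
    rw [Measure.smul_apply, Measure.restrict_apply (hs m), smul_eq_mul]
  rw [h4, smul_smul, ENNReal.mul_inv_cancel h2 h3, one_smul]

lemma Phi_smul {a : ℝ} (ha : 0 < a) (c : S → ℝ × ℝ) : Phi (a • c) = Phi c := by
  unfold Phi
  refine lintegral_congr fun α => ?_
  have : rotc α (a • c) = a • rotc α c := by
    funext m
    exact rot_smul α a (c m)
  rw [this, NP_smul ha]

/-- rescaling -/
lemma lintegral_Phi_scale (ν : S → Measure (ℝ × ℝ)) [∀ m, IsProbabilityMeasure (ν m)] {a : ℝ}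
    (ha : 0 < a) : ∫⁻ c, Phi c ∂Measure.pi ν =
      ∫⁻ c, Phi c ∂Measure.pi fun m => (ν m).map fun v => a • v := by
  have : ∀ m, IsProbabilityMeasure ((ν m).map fun v => a • v) := fun m =>
    Measure.isProbabilityMeasure_map (by fun_prop)
  have h1 : MeasurePreserving (fun c : S → ℝ × ℝ => fun m => a • c m) (Measure.pi ν)
      (Measure.pi fun m => (ν m).map fun v => a • v) :=
    measurePreserving_pi ν _ fun m => ⟨by fun_prop, rfl⟩
  rw [← h1.lintegral_comp measurable_Phi]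
  refine lintegral_congr fun c => ?_
  exact (Phi_smul ha c).symm

/-- the density of the rescaled uniform distribution -/
lemma dens_scale {B : Set (ℝ × ℝ)} {ρ : ℝ} (hρ : 0 < ρ)
    (h : ENNReal.ofReal (ρ ^ 2) ≤ volume B) (E : Set (ℝ × ℝ)) :
    ((unif B).map fun v => ρ⁻¹ • v) E ≤ volume E := by
  have h0 : ENNReal.ofReal (ρ ^ 2) ≠ 0 := by
    rw [ne_eq, ENNReal.ofReal_eq_zero, not_le]
    positivity
  have key : ((unif B).map fun v => ρ⁻¹ • v) ≤ volume := by
    rw [Measure.le_iff]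
    intro E hE
    rw [Measure.map_apply (by fun_prop) hE]
    unfold unif
    rw [Measure.smul_apply, smul_eq_mul]
    have h1 : volume ((fun v : ℝ × ℝ => ρ⁻¹ • v) ⁻¹' E) = ENNReal.ofReal (ρ ^ 2) * volume E := by
      have h2 := Measure.addHaar_preimage_smul (volume : Measure (ℝ × ℝ)) (r := ρ⁻¹)
        (inv_ne_zero hρ.ne') E
      rw [Module.finrank_prod, Module.finrank_self, one_add_one_eq_two] at h2
      rw [h2]
      congr 2
      rw [inv_pow, inv_inv, abs_of_pos (by positivity)]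
    calc (volume B)⁻¹ * volume.restrict B ((fun v : ℝ × ℝ => ρ⁻¹ • v) ⁻¹' E)
        ≤ (ENNReal.ofReal (ρ ^ 2))⁻¹ * (ENNReal.ofReal (ρ ^ 2) * volume E) := by
          refine mul_le_mul' (ENNReal.inv_le_inv.2 h) ?_
          rw [← h1]
          exact Measure.restrict_apply_le _ _
      _ = volume E := by
          rw [← mul_assoc, ENNReal.inv_mul_cancel h0 ENNReal.ofReal_ne_top, one_mul]
  exact Measure.le_iff'.1 key E

/-- integrals of functions bounded on the set -/
lemma lintegral_scale_le {B : Set (ℝ × ℝ)} (hB : MeasurableSet B) (h0 : volume B ≠ 0)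
    (h1 : volume B ≠ ⊤) {ρ : ℝ} {f : ℝ × ℝ → ℝ≥0∞} (hf : Measurable f) {K : ℝ≥0∞}
    (h : ∀ v ∈ B, f (ρ⁻¹ • v) ≤ K) : ∫⁻ v, f v ∂((unif B).map fun v => ρ⁻¹ • v) ≤ K := by
  rw [lintegral_map hf (by fun_prop)]
  unfold unif
  rw [lintegral_smul_measure, smul_eq_mul]
  calc (volume B)⁻¹ * ∫⁻ v in B, f (ρ⁻¹ • v) ≤ (volume B)⁻¹ * ∫⁻ _ in B, K := by
        exact mul_le_mul' le_rfl (setLIntegral_mono' hB h)
    _ = K := by
        rw [lintegral_const, Measure.restrict_apply_univ, mul_comm K, ← mul_assoc,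
          ENNReal.inv_mul_cancel h0 h1, one_mul]

/-- the data: closed convex sets with discs inside and outside -/
structure Dat (A : S → Set (ℝ × ℝ)) (p : S → ℝ × ℝ) (r R : S → ℝ) (ρ : ℝ) : Prop where
  pos : 0 < ρ
  low : ∀ m, ρ ≤ r m
  closed : ∀ m, IsClosed (A m)
  conv : ∀ m, Convex ℝ (A m)
  inn : ∀ m, disc (p m) (r m) ⊆ A m
  out : ∀ m, A m ⊆ disc 0 (R m)
  R0 : ∀ m, 0 ≤ R m

variable {A : S → Set (ℝ × ℝ)} {p : S → ℝ × ℝ} {r R : S → ℝ} {ρ : ℝ}

lemma Dat.rpos (h : Dat A p r R ρ) (m : S) : 0 < r m := h.pos.trans_le (h.low m)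

lemma mem_disc_self (p : ℝ × ℝ) (r : ℝ) : p ∈ disc p r := by
  change (p.1 - p.1) ^ 2 + (p.2 - p.2) ^ 2 ≤ r ^ 2
  nlinarith [sq_nonneg r]

/-- the radius of the large disc is at least that of the small one -/
lemma Dat.le (h : Dat A p r R ρ) (m : S) : r m ≤ R m := by
  have hr := h.rpos m
  have h1 : ∀ s : ℝ, |s| = 1 → ((p m).1 + s * r m, (p m).2) ∈ disc (p m) (r m) := by
    intro s hs
    change ((p m).1 + s * r m - (p m).1) ^ 2 + ((p m).2 - (p m).2) ^ 2 ≤ r m ^ 2
    have : s ^ 2 = 1 := by rw [← sq_abs, hs, one_pow]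
    nlinarith
  have h2 := h.out m (h.inn m (h1 1 (by norm_num)))
  have h3 := h.out m (h.inn m (h1 (-1) (by norm_num)))
  change ((p m).1 + 1 * r m - 0) ^ 2 + ((p m).2 - 0) ^ 2 ≤ R m ^ 2 at h2
  change ((p m).1 + -1 * r m - 0) ^ 2 + ((p m).2 - 0) ^ 2 ≤ R m ^ 2 at h3
  have h4 : r m ^ 2 ≤ R m ^ 2 := by nlinarith [sq_nonneg (p m).1, sq_nonneg (p m).2]
  exact le_of_sq_le_sq h4 (h.R0 m)

/-- the mean over a product of convex sets -/
theorem mean_conv (hF : Full2 n S) (h : Dat A p r R ρ) :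
    ∫⁻ c in univ.pi A, NP c ≤ ENNReal.ofReal (2 * 10 ^ 16 * (∑ m, R m / r m) *
      (1 + Real.log (n * ∑ m, R m / ρ)) ^ 3 *
      min ((n:ℝ) ^ 2) (18 * S.card * (∑ m, R m / ρ) ^ 2)) * volume (univ.pi A) := by
  have hne : Nonempty S := ⟨⟨(0, 0), hF.toFull.h00⟩⟩
  have hn1 : (1:ℝ) ≤ n := by exact_mod_cast hF.one_le
  have hρ := h.pos
  have hr := h.rpos
  have hq1 : ∀ m, 1 ≤ R m / r m := fun m => (one_le_div (hr m)).2 (h.le m)
  have hq2 : ∀ m, 1 ≤ R m / ρ := fun m => (one_le_div hρ).2 ((h.low m).trans (h.le m))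
  set L1 : ℝ := ∑ m, R m / r m with hL1
  set L2 : ℝ := ∑ m, R m / ρ with hL2
  have hle1 : ∀ m, R m / r m ≤ L1 := fun m =>
    Finset.single_le_sum (f := fun m => R m / r m) (fun i _ => zero_le_one.trans (hq1 i))
      (Finset.mem_univ m)
  have hle2 : ∀ m, R m / ρ ≤ L2 := fun m =>
    Finset.single_le_sum (f := fun m => R m / ρ) (fun i _ => zero_le_one.trans (hq2 i))
      (Finset.mem_univ m)
  obtain ⟨m₁⟩ := hne
  have h1L1 : 1 ≤ L1 := (hq1 m₁).trans (hle1 m₁)
  have h1L2 : 1 ≤ L2 := (hq2 m₁).trans (hle2 m₁)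
  have hL1p : 0 < L1 := by linarith
  have hL2p : 0 < L2 := by linarith
  -- the larger sets
  set t : S → ℝ := fun m => R m / r m / L1 with ht
  have ht0 : ∀ m, 0 < t m := fun m => by
    have := hq1 m
    simp only [ht]
    positivity
  have ht1 : ∀ m, t m ≤ 1 := fun m => by
    simp only [ht]
    rw [div_le_one hL1p]
    exact hle1 m
  have hts : ∑ m, t m = 1 := by
    simp only [ht]
    rw [← Finset.sum_div, ← hL1, div_self hL1p.ne']
  set B : S → Set (ℝ × ℝ) := fun m => dil (p m) (t m) (A m) with hB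
  have hAc : ∀ m, IsCompact (A m) := fun m => isCompact_of (h.closed m) (h.R0 m) (h.out m)
  have hBc : ∀ m, IsCompact (B m) := fun m => isCompact_dil (hAc m) _ _
  have hAm : ∀ m, MeasurableSet (A m) := fun m => (hAc m).measurableSet
  have hBm : ∀ m, MeasurableSet (B m) := fun m => (hBc m).measurableSet
  have hAB : ∀ m, A m ⊆ B m := fun m => subset_dil (h.conv m) (hr m).le (h.inn m) (ht0 m)
  have hvA : ∀ m, ENNReal.ofReal (ρ ^ 2) ≤ volume (A m) := fun m =>
    volume_ge hρ.le (h.low m) (h.inn m)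
  have hvB : ∀ m, ENNReal.ofReal (ρ ^ 2) ≤ volume (B m) := fun m =>
    (hvA m).trans (measure_mono (hAB m))
  have hρ0 : ENNReal.ofReal (ρ ^ 2) ≠ 0 := by
    rw [ne_eq, ENNReal.ofReal_eq_zero, not_le]
    positivity
  have hB0 : ∀ m, volume (B m) ≠ 0 := fun m h0 => hρ0 (le_antisymm ((hvB m).trans_eq h0) zero_le)
  have hBt : ∀ m, volume (B m) ≠ ⊤ := fun m => (hBc m).measure_lt_top.ne
  have hprob : ∀ m, IsProbabilityMeasure (unif (B m)) := fun m => unif_prob (hB0 m) (hBt m)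
  -- the step from the product of the A m to that of the B m
  have hδ : (1 / L1) ≤ π := by
    have : 1 / L1 ≤ 1 := by rw [div_le_one hL1p]; exact h1L1
    linarith [Real.pi_gt_three]
  have hrotB : ∀ m, ∀ α ∈ Ioo 0 (1 / L1), ∀ v ∈ A m, rot (-α) v ∈ B m := by
    intro m α hα v hv
    have e1 : rot (-α) v = v + (rot (-α) v - v) := by abel
    rw [e1]
    refine mem_dil (h.conv m) (hr m).le (h.inn m) (ht0 m) hv ?_
    refine (en_rot_sub _ _).trans ?_
    rw [abs_neg, abs_of_pos hα.1]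
    have h2 : en v ≤ R m := by
      have := (mem_disc (h.R0 m)).1 (h.out m hv)
      rwa [sub_zero] at this
    have h3 : t m * r m = 1 / L1 * R m := by
      simp only [ht]
      have := (hr m).ne'
      field_simp
    rw [h3]
    exact mul_le_mul hα.2.le h2 (en_nonneg _) (by positivity)
  have s1 := phi_int hAm hBm hδ hrotB
  -- the scaled uniform laws
  set ν : S → Measure (ℝ × ℝ) := fun m => (unif (B m)).map fun v => ρ⁻¹ • v with hν
  have hνp : ∀ m, IsProbabilityMeasure (ν m) := fun m =>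
    Measure.isProbabilityMeasure_map (by fun_prop)
  have s2 : ∫⁻ c in univ.pi B, Phi c = volume (univ.pi B) * ∫⁻ c, Phi c ∂Measure.pi ν := by
    rw [pi_unif hB0 hBt, lintegral_smul_measure, smul_eq_mul,
      lintegral_Phi_scale (fun m => unif (B m)) (inv_pos.2 hρ)]
  have hD : Dens ν 1 := fun m E => by
    rw [ENNReal.ofReal_one, one_mul]
    exact dens_scale hρ (hvB m) E
  have hbd : ∀ m, ∀ v ∈ B m, en (ρ⁻¹ • v) ≤ 3 * (R m / ρ) := by
    intro m v hv
    have h2 := dil_bdd (h.R0 m) (h.out m) (h.inn m (mem_disc_self _ _)) (ht0 m).le hv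
    rw [en_smul, abs_of_pos (inv_pos.2 hρ)]
    have h3 : (1 + 2 * t m) * R m ≤ 3 * R m :=
      mul_le_mul_of_nonneg_right (by linarith [ht1 m]) (h.R0 m)
    calc ρ⁻¹ * en v ≤ ρ⁻¹ * (3 * R m) :=
          mul_le_mul_of_nonneg_left (h2.trans h3) (inv_pos.2 hρ).le
      _ = 3 * (R m / ρ) := by field_simp
  have hmo : ∀ m, mo (ν m) ≤ ENNReal.ofReal (3 * (R m / ρ)) := fun m =>
    lintegral_scale_le (hBm m) (hB0 m) (hBt m)
      (ENNReal.measurable_ofReal.comp TH275.RF.continuous_en.measurable)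
      fun v hv => ENNReal.ofReal_le_ofReal (hbd m v hv)
  have hW : Mom ν (9 * L2 ^ 2) := fun m => by
    refine lintegral_scale_le (hBm m) (hB0 m) (hBt m) (by fun_prop) fun v hv => ?_
    apply ENNReal.ofReal_le_ofReal
    rw [← en_sq']
    calc en (ρ⁻¹ • v) ^ 2 ≤ (3 * L2) ^ 2 := by
          refine pow_le_pow_left₀ (en_nonneg _) ((hbd m v hv).trans ?_) 2
          linarith [hle2 m]
      _ = 9 * L2 ^ 2 := by ring
  have hW1 : (1:ℝ) ≤ 9 * L2 ^ 2 := by nlinarith
  have s3 := lintegral_phiK hF ν le_rfl hW1 hD hW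
  -- the number of equilibria
  have z1 : ∫⁻ c, NZ c ∂Measure.pi ν ≤ ENNReal.ofReal ((n:ℝ) ^ 2) := by
    refine (W960.HR.lintegral_NZ_le hF.toFull ν le_rfl hW1 hD hW).trans (le_of_eq ?_)
    rw [ENNReal.ofReal_pow (by positivity), ENNReal.ofReal_natCast]
  have z2 : ∫⁻ c, NZ c ∂Measure.pi ν ≤ ENNReal.ofReal (18 * S.card * L2 ^ 2) := by
    refine (TH275.RF.lintegral_NZ hF.toFull.h00 ν hD).trans ?_
    have z3 : ∑ m, mo (ν m) ≤ ENNReal.ofReal (3 * L2) := by
      refine (Finset.sum_le_sum fun m _ => hmo m).trans (le_of_eq ?_)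
      rw [← ENNReal.ofReal_sum_of_nonneg (fun m _ => by linarith [hq2 m]), ← Finset.mul_sum]
    calc 2 * (S.card * (ENNReal.ofReal 1 * (∑ m, mo (ν m)) ^ 2))
        ≤ ENNReal.ofReal 2 * (ENNReal.ofReal S.card * (ENNReal.ofReal 1 *
            ENNReal.ofReal (3 * L2) ^ 2)) := by
          rw [ENNReal.ofReal_natCast, ENNReal.ofReal_ofNat]
          gcongr
      _ = ENNReal.ofReal (18 * S.card * L2 ^ 2) := by
          rw [← ENNReal.ofReal_pow (by positivity), ← ENNReal.ofReal_mul (by norm_num),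
            ← ENNReal.ofReal_mul (by positivity), ← ENNReal.ofReal_mul (by norm_num)]
          congr 1
          ring
  have z4 : ∫⁻ c, NZ c ∂Measure.pi ν ≤
      ENNReal.ofReal (min ((n:ℝ) ^ 2) (18 * S.card * L2 ^ 2)) := by
    rcases min_choice ((n:ℝ) ^ 2) (18 * S.card * L2 ^ 2) with h' | h' <;> rw [h']
    · exact z1
    · exact z2
  set M : ℝ := min ((n:ℝ) ^ 2) (18 * S.card * L2 ^ 2) with hM
  have hcard : (1:ℝ) ≤ S.card := by exact_mod_cast Finset.card_pos.2 ⟨_, hF.toFull.h00⟩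
  have hM1 : 1 ≤ M := by
    rw [hM, le_min_iff]
    refine ⟨one_le_pow₀ hn1, ?_⟩
    have : (1:ℝ) ≤ L2 ^ 2 := one_le_pow₀ h1L2
    nlinarith
  -- the volumes
  have v1 : volume (univ.pi B) ≤ ENNReal.ofReal (37 / 5) * volume (univ.pi A) := by
    rw [volume_pi_pi, volume_pi_pi]
    simp only [hB, volume_dil _ (ht0 _).le]
    rw [Finset.prod_mul_distrib]
    refine mul_le_mul' ?_ le_rfl
    rw [← ENNReal.ofReal_prod_of_nonneg fun m _ => by positivity]
    apply ENNReal.ofReal_le_ofReal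
    have v2 : ∏ m, (1 + t m) ^ 2 ≤ ∏ m, rexp (2 * t m) := by
      refine Finset.prod_le_prod (fun m _ => by positivity) fun m _ => ?_
      have v3 : 1 + t m ≤ rexp (t m) := by
        have := Real.add_one_le_exp (t m)
        linarith
      calc (1 + t m) ^ 2 ≤ rexp (t m) ^ 2 := pow_le_pow_left₀ (by linarith [ht0 m]) v3 2
        _ = rexp (2 * t m) := by rw [← Real.exp_nat_mul]; norm_num
    refine v2.trans ?_
    rw [← Real.exp_sum, ← Finset.mul_sum, hts, mul_one]
    have v4 : rexp 2 = rexp 1 ^ 2 := by rw [← Real.exp_nat_mul]; norm_num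
    rw [v4]
    have v5 := Real.exp_one_lt_d9
    have v6 := Real.exp_pos 1
    nlinarith
  -- the logarithm
  set l := Real.log (n * L2) with hl
  have hnL : 1 ≤ (n:ℝ) * L2 := one_le_mul_of_one_le_of_one_le hn1 h1L2
  have hl0 : 0 ≤ l := Real.log_nonneg hnL
  have hlog0 : 0 ≤ Real.log (n * 1 * (9 * L2 ^ 2)) := by
    apply Real.log_nonneg
    rw [mul_one]
    exact one_le_mul_of_one_le_of_one_le hn1 hW1
  have hlog : 1 + Real.log (n * 1 * (9 * L2 ^ 2)) ≤ 16 / 5 * (1 + l) := by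
    have h3 : (n:ℝ) * 1 * (9 * L2 ^ 2) ≤ 9 * (n * L2) ^ 2 := by
      have h5 : (n:ℝ) ≤ n ^ 2 := by nlinarith
      calc (n:ℝ) * 1 * (9 * L2 ^ 2) = 9 * (n * L2 ^ 2) := by ring
        _ ≤ 9 * (n ^ 2 * L2 ^ 2) := by gcongr
        _ = _ := by ring
    have h4 := Real.log_le_log (by positivity) h3
    have e4 : Real.log (9 * (n * L2) ^ 2) = Real.log 9 + 2 * Real.log (n * L2) := by
      rw [Real.log_mul (by norm_num) (by positivity), Real.log_pow]
      push_cast
      ring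
    rw [e4] at h4
    have h5 : Real.log 9 ≤ 11 / 5 := by
      have : (9:ℝ) = 3 ^ 2 := by norm_num
      rw [this, Real.log_pow]
      have h6 : Real.log 3 ≤ 11 / 10 := by
        rw [Real.log_le_iff_le_exp (by norm_num)]
        have h7 : rexp (11 / 10) = rexp 1 * rexp (1 / 10) := by
          rw [← Real.exp_add]
          norm_num
        rw [h7]
        have h8 := Real.exp_one_gt_d9
        have h9 := Real.quadratic_le_exp_of_nonneg (x := (1 / 10 : ℝ)) (by norm_num)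
        nlinarith
      push_cast
      linarith
    linarith
  -- the final step
  set V := volume (univ.pi A) with hV
  set I := ∫⁻ c in univ.pi A, NP c with hI
  have f1 : ENNReal.ofReal (1 / L1) * I ≤ ENNReal.ofReal (37 / 5) * V *
      (ENNReal.ofReal (25 * 10 ^ 12 * (1 + Real.log (n * 1 * (9 * L2 ^ 2))) ^ 3) *
        (1 + ENNReal.ofReal M)) := by
    refine s1.trans ?_
    rw [s2]
    exact mul_le_mul' v1 (s3.trans (mul_le_mul' le_rfl (add_le_add le_rfl z4)))
  have f2 : I = ENNReal.ofReal L1 * (ENNReal.ofReal (1 / L1) * I) := by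
    rw [← mul_assoc, ← ENNReal.ofReal_mul hL1p.le, mul_one_div_cancel hL1p.ne',
      ENNReal.ofReal_one, one_mul]
  rw [f2]
  calc ENNReal.ofReal L1 * (ENNReal.ofReal (1 / L1) * I)
      ≤ ENNReal.ofReal L1 * (ENNReal.ofReal (37 / 5) * V *
      (ENNReal.ofReal (25 * 10 ^ 12 * (1 + Real.log (n * 1 * (9 * L2 ^ 2))) ^ 3) *
        (1 + ENNReal.ofReal M))) := mul_le_mul' le_rfl f1
    _ = (ENNReal.ofReal L1 * ENNReal.ofReal (37 / 5) *
        ENNReal.ofReal (25 * 10 ^ 12 * (1 + Real.log (n * 1 * (9 * L2 ^ 2))) ^ 3) *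
        (1 + ENNReal.ofReal M)) * V := by ring
    _ ≤ _ := by
        refine mul_le_mul' ?_ le_rfl
        rw [← ENNReal.ofReal_one, ← ENNReal.ofReal_add (by norm_num) (by linarith),
          ← ENNReal.ofReal_mul hL1p.le, ← ENNReal.ofReal_mul (by positivity),
          ← ENNReal.ofReal_mul (by positivity)]
        apply ENNReal.ofReal_le_ofReal
        have g1 : (1 + Real.log (n * 1 * (9 * L2 ^ 2))) ^ 3 ≤ (16 / 5 * (1 + l)) ^ 3 :=
          pow_le_pow_left₀ (by linarith) hlog 3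
        have g2 : (1 + Real.log (n * 1 * (9 * L2 ^ 2))) ^ 3 * (1 + M) ≤
            (16 / 5 * (1 + l)) ^ 3 * (2 * M) :=
          mul_le_mul g1 (by linarith) (by linarith) (by positivity)
        have g3 : 0 ≤ L1 * (1 + l) ^ 3 * M :=
          mul_nonneg (mul_nonneg hL1p.le (pow_nonneg (by linarith) 3)) (by linarith)
        have g4 := mul_le_mul_of_nonneg_left g2 hL1p.le
        generalize (1 + Real.log (n * 1 * (9 * L2 ^ 2))) ^ 3 = Y at g4 ⊢
        have g5 : L1 * ((16 / 5 * (1 + l)) ^ 3 * (2 * M)) =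
            8192 / 125 * (L1 * (1 + l) ^ 3 * M) := by ring
        rw [g5] at g4
        generalize hG : L1 * (1 + l) ^ 3 * M = G at g3 g4
        have g6 : L1 * (37 / 5) * (25 * 10 ^ 12 * Y) * (1 + M) =
            185 * 10 ^ 12 * (L1 * (Y * (1 + M))) := by ring
        have g7 : 2 * 10 ^ 16 * L1 * (1 + l) ^ 3 * M = 2 * 10 ^ 16 * G := by rw [← hG]; ring
        rw [g6, g7]
        linarith

end

end Pool.Agent.Y393.HC
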