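import Pool.Agent.TH275.KL.Smooth
import Pool.Agent.TH275.RF.GaussW2

/-! Smoothed analysis, few monomials, Gaussian noise: a better bound in the number of monomials. -/

open Real Set MeasureTheory Topology Filter ProbabilityTheory
open scoped ENNReal

namespace Pool.Agent.Y393.HC

noncomputable section

open Pool.Agent
open Pool.Agent.TH275.KLS (nb nb_nonneg)
open Pool.Agent.TH275.KL (Full2 centredK scale_centre)
open Pool.Agent.TH275.RF (mo law s2 s2_pos mo_law)
open Pool.Agent.H709R2 (NP)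
open Pool.Agent.W960.HR (Full NZ sn sn_nonneg gb GP dens_gb mom_gb)

variable {S : Finset (ℕ × ℕ)} {n : ℕ}

/-- the expected number of equilibria for a Gaussian law with centre `b` -/
lemma lintegral_NZ_gb (h00 : (0, 0) ∈ S) (b : S → ℝ × ℝ) :
    ∫⁻ c, NZ c ∂gb b ≤ ENNReal.ofReal (4 * S.card ^ 2 * (sn b + 2 * S.card)) := by
  have h0 := TH275.RF.lintegral_NZ h00 (law b) (D := ENNReal.ofReal 1) (dens_gb b)
  have hs : 0 ≤ sn b := sn_nonneg b
  have h1 : (∑ m, mo (law b m)) ≤ ENNReal.ofReal (∑ m, √(s2 b m)) := by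
    rw [ENNReal.ofReal_sum_of_nonneg fun m _ => Real.sqrt_nonneg _]
    exact Finset.sum_le_sum fun m _ => mo_law b m
  have h2 : (∑ m, √(s2 b m)) ^ 2 ≤ S.card * (2 * sn b + 4 * S.card) := by
    have h3 := sq_sum_le_card_mul_sum_sq (s := (Finset.univ : Finset S)) (f := fun m => √(s2 b m))
    refine h3.trans (le_of_eq ?_)
    rw [Finset.card_univ, Fintype.card_coe]
    congr 1
    calc ∑ m, √(s2 b m) ^ 2 = ∑ m, s2 b m :=
          Finset.sum_congr rfl fun m _ => Real.sq_sqrt (s2_pos b m).le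
      _ = 2 * sn b + 4 * S.card := by
          unfold s2 sn
          rw [Finset.sum_add_distrib, ← Finset.mul_sum, Finset.sum_const, Finset.card_univ,
            Fintype.card_coe, nsmul_eq_mul]
          ring
  refine h0.trans ?_
  calc 2 * (S.card * (ENNReal.ofReal 1 * (∑ m, mo (law b m)) ^ 2))
      ≤ ENNReal.ofReal 2 * (ENNReal.ofReal S.card * (ENNReal.ofReal 1 *
          ENNReal.ofReal (∑ m, √(s2 b m)) ^ 2)) := by
        rw [ENNReal.ofReal_natCast, ENNReal.ofReal_ofNat]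
        gcongr
    _ = ENNReal.ofReal (2 * (S.card * (1 * (∑ m, √(s2 b m)) ^ 2))) := by
        have hq : 0 ≤ ∑ m, √(s2 b m) := Finset.sum_nonneg fun m _ => Real.sqrt_nonneg _
        rw [← ENNReal.ofReal_pow hq, ← ENNReal.ofReal_mul (by norm_num),
          ← ENNReal.ofReal_mul (by positivity), ← ENNReal.ofReal_mul (by norm_num)]
    _ ≤ _ := by
        apply ENNReal.ofReal_le_ofReal
        have : (0:ℝ) ≤ S.card := by positivity
        calc 2 * ((S.card:ℝ) * (1 * (∑ m, √(s2 b m)) ^ 2))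
            ≤ 2 * (S.card * (1 * (S.card * (2 * sn b + 4 * S.card)))) := by gcongr
          _ = _ := by ring

/-- **Smoothed analysis for an arbitrary admissible set of exponents.** -/
theorem smoothedK' (hF : Full2 n S) (c₀ : S → ℝ × ℝ) {σ : ℝ} (hσ : 0 < σ) :
    ∫⁻ g, NP (fun m => c₀ m + σ • g m) ∂GP S ≤
      ENNReal.ofReal (22 * 10 ^ 15 * (1 + √(sn c₀) / σ) *
        (1 + Real.log (n * (1 + √(sn c₀) / σ))) ^ 3 *
        (1 + min ((n:ℝ) ^ 2) (4 * S.card ^ 2 * ((1 + √(sn c₀) / σ) ^ 2 + 2 * S.card)))) := by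
  obtain ⟨h1, h2⟩ := scale_centre c₀ hσ
  rw [h2, ← h1]
  set b := σ⁻¹ • c₀ with hb
  have hβ := nb_nonneg b
  refine centredK hF b (le_min (by positivity) (by positivity)) fun b' hb' => ?_
  have hβ' := nb_nonneg b'
  rcases min_choice ((n:ℝ) ^ 2) (4 * S.card ^ 2 * ((1 + nb b) ^ 2 + 2 * S.card)) with h | h <;> rw [h]
  · have hW : (1:ℝ) ≤ 4 * (1 + nb b') ^ 2 := by nlinarith
    refine (TH275.RF.lintegral_NZ_min hF.toFull (fun m : S => H709R2.g2.map fun v => b' m + v)
      le_rfl hW (dens_gb b') (mom_gb b')).trans (ENNReal.ofReal_le_ofReal (min_le_left _ _))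
  · refine (lintegral_NZ_gb hF.toFull.h00 b').trans (ENNReal.ofReal_le_ofReal ?_)
    have h3 : sn b' = nb b' ^ 2 := by
      unfold nb
      rw [Real.sq_sqrt (sn_nonneg b')]
    have h4 : sn b' ≤ (1 + nb b) ^ 2 := by
      rw [h3]
      exact pow_le_pow_left₀ hβ' hb' 2
    gcongr

end

end Pool.Agent.Y393.HC
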